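import Pool.Agent.helper7.PQ.Spec
import Pool.Agent.helper83.OD.AllO

/-!
# Project pq:, module JC: the element of `WW` with the coefficients `JG ac k`
-/

set_option autoImplicit false

open Finset PowerSeries

noncomputable section

namespace Pool.Agent.PQ

open Pool.Agent.EP

theorem JC_two (f : KK) : f + f = 0 := by
  ext M
  rw [HahnSeries.coeff_add]
  exact CharTwo.add_self_eq_zero _

theorem JC_span : ∀ f ∈ WW, ∃ s : Finset ℕ, (∀ i ∈ s, 1 ≤ i) ∧ f = ∑ i ∈ s, ww ^ i := by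
  intro f hf
  unfold WW at hf
  induction hf using Submodule.span_induction with
  | mem x hx =>
    obtain ⟨i, hi, rfl⟩ := hx
    refine ⟨{i}, fun j hj => ?_, by rw [Finset.sum_singleton]⟩
    rw [Finset.mem_singleton] at hj
    rw [hj]
    exact hi
  | zero => exact ⟨∅, fun i hi => absurd hi (Finset.notMem_empty i), by rw [Finset.sum_empty]⟩
  | add x y _ _ hx hy =>
    obtain ⟨s, hs, rfl⟩ := hx
    obtain ⟨t, ht, rfl⟩ := hy
    refine ⟨(s \ t) ∪ (t \ s), ?_, ?_⟩
    · intro i hi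
      rw [Finset.mem_union, Finset.mem_sdiff, Finset.mem_sdiff] at hi
      rcases hi with h | h
      · exact hs i h.1
      · exact ht i h.1
    · have hd : Disjoint (s \ t) (t \ s) := by
        rw [Finset.disjoint_left]
        intro i h1 h2
        rw [Finset.mem_sdiff] at h1 h2
        exact h1.2 h2.1
      rw [Finset.sum_union hd, ← Finset.sum_inter_add_sum_sdiff s t,
        ← Finset.sum_inter_add_sum_sdiff t s, Finset.inter_comm t s]
      have h2 := JC_two (∑ x ∈ s ∩ t, ww ^ x)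
      calc _ = (∑ x ∈ s ∩ t, ww ^ x + ∑ x ∈ s ∩ t, ww ^ x) +
            (∑ x ∈ s \ t, ww ^ x + ∑ x ∈ t \ s, ww ^ x) := by abel
        _ = _ := by rw [h2, zero_add]
  | smul c x _ hx =>
    obtain ⟨s, hs, rfl⟩ := hx
    have hc : c = 0 ∨ c = 1 := by
      revert c
      decide
    rcases hc with rfl | rfl
    · exact ⟨∅, fun i hi => absurd hi (Finset.notMem_empty i), by rw [zero_smul, Finset.sum_empty]⟩
    · exact ⟨s, hs, by rw [one_smul]⟩

theorem JC_ww0 (n : ℕ) (hn : 1 ≤ n) : (ww ^ n).coeff 0 = 0 := by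
  obtain ⟨a, c, hc, rfl⟩ : ∃ a c : ℕ, c % 2 = 1 ∧ n = c * 2 ^ a := by
    obtain ⟨a, c, h1, h2⟩ := Nat.exists_eq_pow_mul_and_not_dvd (n := n) (by omega) 2 (by norm_num)
    exact ⟨a, c, by omega, by rw [h2]; ring⟩
  rw [pow_mul, FRO, if_pos (dvd_zero _), Int.zero_ediv, WM.1, if_neg]
  rintro ⟨h1, _⟩
  omega

theorem JC_pair (hVCL : VCL_stmt) (l i : ℕ) :
    (ww ^ l * vvx ^ i).coeff 0 = if i = l then 1 else 0 := by
  have hvv : ww * vvx = 1 := WM.2
  rcases lt_trichotomy l i with h | h | h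
  · rw [if_neg (by omega)]
    have h6 : i = l + (i - l) := by omega
    have h7 : ww ^ l * vvx ^ i = vvx ^ (i - l) := by
      conv_lhs => rw [h6]
      rw [pow_add, ← mul_assoc, ← mul_pow, hvv, one_pow, one_mul]
    rw [h7]
    by_contra h0
    have := (hVCL (i - l) 0 h0).2
    omega
  · rw [if_pos h.symm, h, ← mul_pow, hvv, one_pow]
    exact HahnSeries.coeff_one.trans (if_pos rfl)
  · rw [if_neg (by omega)]
    have h6 : l = (l - i) + i := by omega
    have h7 : ww ^ l * vvx ^ i = ww ^ (l - i) := by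
      conv_lhs => rw [h6]
      rw [pow_add, mul_assoc, ← mul_pow, hvv, one_pow, mul_one]
    rw [h7]
    exact JC_ww0 _ (by omega)

theorem JC_left (hVCL : VCL_stmt) (s : Finset ℕ) (i : ℕ) :
    ((∑ l ∈ s, ww ^ l) * vvx ^ i).coeff 0 = if i ∈ s then 1 else 0 := by
  rw [Finset.sum_mul, HahnSeries.coeff_sum, Finset.sum_congr rfl fun l _ => JC_pair hVCL l i,
    Finset.sum_ite_eq]

theorem JC_right (hVCL : VCL_stmt) (k : ℕ) (f : KK)
    (hf : ∀ M : ℤ, M < 0 → f.coeff M = if M = -(k : ℤ) then 1 else 0) (hk : 0 < k) (i : ℕ)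
    (hi : 1 ≤ i) : (f * vvx ^ i).coeff 0 = (vvx ^ i).coeff (k : ℤ) := by
  rw [HahnSeries.coeff_mul, Finset.sum_eq_single ((-(k : ℤ), (k : ℤ)) : ℤ × ℤ)]
  · rw [hf _ (by simpa using hk), if_pos rfl, one_mul]
  · rintro ⟨x, y⟩ hxy hne
    rw [Finset.mem_antidiagonal] at hxy
    obtain ⟨_, _, hs⟩ := hxy
    simp only at hs ⊢
    by_cases hy : (vvx ^ i).coeff y = 0
    · rw [hy, mul_zero]
    · have h1 := (hVCL i y hy).2
      rw [hf x (by omega), if_neg, zero_mul]
      intro hx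
      apply hne
      rw [Prod.mk.injEq]
      exact ⟨hx, by omega⟩
  · intro hn
    rw [Finset.mem_antidiagonal] at hn
    simp only [HahnSeries.mem_support, neg_add_cancel, and_true, not_and, not_not] at hn
    rw [hf _ (by simpa using hk), if_pos rfl, one_mul]
    apply hn
    rw [hf _ (by simpa using hk), if_pos rfl]
    exact one_ne_zero

theorem JC (hVCL : VCL_stmt) : JC_stmt := by
  intro k hk
  have hk0 : 0 < k := by
    rcases Nat.eq_zero_or_pos k with h | h
    · rw [h] at hk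
      norm_num at hk
    · exact h
  obtain ⟨f, hf, hfc⟩ := all_JW k hk0 hk
  obtain ⟨s, hs, rfl⟩ := JC_span f hf
  refine ⟨s, hs, hfc, fun i hi => ?_⟩
  rw [← JC_right hVCL k (∑ i ∈ s, ww ^ i) (fun M hM => by rw [hfc, JN k M hk0 hM]) hk0 i hi]
  exact JC_left hVCL s i

end Pool.Agent.PQ
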